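import Pool.Agent.Helper57.DG.Final

set_option autoImplicit false

/-!
# MP_74ecc6_co: hosts of any size whose copies are caught by small sets with moderate overlap
-/

namespace Pool.Agent.Helper57.DG2.Covered

open Pool.Agent.Helper57.DG

/-- There are connected graphs `H n` on `n` vertices of maximum degree at most 3 such that for all
`D` and `a < k` there is `K` with the following property for all `n` and `C > 0` with
`K ^ C ≤ log₂ n`.  Let `G` be a graph, finite or infinite, of maximum degree at most `D`, and let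
`V i` be vertex sets with at most `n ^ (C log₂ n)` vertices such that every vertex of `G` is in at
most `n ^ (a / k)` of them.  If every copy of `H n` in `G` has a set `X` of at most
`n ^ (1 - (a + 1) / k)` vertices such that every connected set of other vertices of the copy lies in
one `V i`, then `G` is not Ramsey for `H n`. -/
theorem result : ∃ H : (n : ℕ) → SimpleGraph (Fin n),
    (∀ n v, ((H n).neighborSet v).ncard ≤ 3) ∧ (∀ n, 0 < n → (H n).Connected) ∧
    ∀ D k a : ℕ, a < k → ∃ K, ∀ n C, 0 < C → K ^ C ≤ Nat.log 2 n →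
    ∀ (W ι : Type) (G : SimpleGraph W),
    (∀ x, (G.neighborSet x).Finite ∧ (G.neighborSet x).ncard ≤ D) →
    ∀ V : ι → Set W, (∀ i, (V i).Finite ∧ (V i).ncard ≤ n ^ (C * Nat.log 2 n)) →
    (∀ x, {i | x ∈ V i}.Finite ∧ {i | x ∈ V i}.ncard ^ k ≤ n ^ a) →
    (∀ f : (H n).Copy G, ∃ X : Set (Fin n), X.ncard ^ k ≤ n ^ (k - (a + 1)) ∧
      ∀ A : Set (Fin n), ((H n).induce A).Connected → Disjoint A X → ∃ i, ∀ v ∈ A, f v ∈ V i) →
    ∃ c : Sym2 W → Bool, ∀ (b : Bool) (f : (H n).Copy G),
      ∃ u v, (H n).Adj u v ∧ c s(f u, f v) ≠ b := by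
  obtain ⟨H, h1, h2, h3, -⟩ := main
  refine ⟨H, h1, h2, ?_⟩
  intro D k a hak
  obtain ⟨K, hK⟩ := h3 D k (a + 1) (by omega) hak
  refine ⟨K, ?_⟩
  intro n C hC hn W ι G hD V hV hmult hcop
  refine sym G (H n) (hK n C hC hn W ι G hD V hV hmult ?_)
  intro f hf
  exact hcop (SimpleGraph.Hom.toCopy ⟨f, fun {u v} huv => hf.2 u v huv⟩ hf.1)

end Pool.Agent.Helper57.DG2.Covered
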