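import Pool.Agent.Helper57.DG2.Slow

set_option autoImplicit false

/-! Crisp form: Ramsey hosts of bounded degree grow exponentially. -/

namespace Pool.Agent.Helper57.DG2

open Filter

/-- The graph `G` is Ramsey for `H`: every colouring of pairs of vertices of `G` with two colours
has a monochromatic copy of `H`. -/
def Ramsey {V W : Type} (G : SimpleGraph W) (H : SimpleGraph V) : Prop :=
  ∀ c : Sym2 W → Bool, ∃ (b : Bool) (f : H.Copy G), ∀ u v, H.Adj u v → c s(f u, f v) = b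

/-- comparison of logarithms -/
lemma logs (M n : ℕ) (hM : 2 ≤ M) (hn : 2 ^ M ≤ n) :
    M ≤ Nat.log 2 n ∧ 1 ≤ Nat.log M (Nat.log 2 n) ∧ (Nat.log 2 n : ℝ) ≤ 2 * Real.log n ∧
      Real.log n ≤ 2 * Nat.log 2 n ∧
      Real.log (Real.log n) ≤ 4 * Real.log M * Nat.log M (Nat.log 2 n) := by
  have hn0 : n ≠ 0 := by
    have : 0 < 2 ^ M := by positivity
    omega
  obtain ⟨L, hL⟩ : ∃ L, L = Nat.log 2 n := ⟨_, rfl⟩
  obtain ⟨C, hC⟩ : ∃ C, C = Nat.log M L := ⟨_, rfl⟩
  rw [← hL, ← hC]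
  have h1 : M ≤ L := by
    rw [hL]
    exact Nat.le_log_of_pow_le (by norm_num) hn
  have hC1 : 1 ≤ C := by
    rw [hC]
    exact Nat.le_log_of_pow_le (by omega) (by rwa [pow_one])
  have hlog2 : (1 : ℝ) / 2 ≤ Real.log 2 := by
    have := Real.log_two_gt_d9
    linarith
  have hlog2' : Real.log 2 ≤ 1 := by
    have := Real.log_two_lt_d9
    linarith
  have hLr : (2 : ℝ) ≤ L := by
    have : 2 ≤ L := by omega
    exact_mod_cast this
  have h2 : (2 : ℝ) ^ L ≤ n := by
    have : 2 ^ L ≤ n := by rw [hL]; exact Nat.pow_log_le_self 2 hn0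
    exact_mod_cast this
  have h3 : (n : ℝ) < 2 ^ (L + 1) := by
    have : n < 2 ^ (L + 1) := by rw [hL]; exact Nat.lt_pow_succ_log_self (by norm_num) n
    exact_mod_cast this
  have hnr : (0 : ℝ) < n := by exact_mod_cast Nat.pos_of_ne_zero hn0
  have h4 : L * Real.log 2 ≤ Real.log n := by
    rw [← Real.log_pow]
    exact Real.log_le_log (by positivity) h2
  have h5 : Real.log n ≤ (L + 1) * Real.log 2 := by
    have := Real.log_le_log hnr h3.le
    rw [Real.log_pow] at this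
    push_cast at this
    exact this
  have h6 : (L : ℝ) ≤ 2 * Real.log n := by nlinarith
  have h7 : Real.log n ≤ 2 * L := by nlinarith
  refine ⟨h1, hC1, h6, h7, ?_⟩
  have hlogn : 0 < Real.log n := by nlinarith
  have h8 : Real.log (Real.log n) ≤ Real.log (2 * L) := Real.log_le_log hlogn h7
  have h9 : Real.log (2 * L) = Real.log 2 + Real.log L := Real.log_mul (by norm_num) (by linarith)
  have h10 : Real.log 2 ≤ Real.log L := Real.log_le_log (by norm_num) hLr
  have h11 : (L : ℝ) < (M : ℝ) ^ (C + 1) := by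
    have : L < M ^ (C + 1) := by rw [hC]; exact Nat.lt_pow_succ_log_self (by omega) L
    exact_mod_cast this
  have h12 : Real.log L ≤ (C + 1) * Real.log M := by
    have := Real.log_le_log (by linarith) h11.le
    rw [Real.log_pow] at this
    push_cast at this
    exact this
  have hlogM : 0 ≤ Real.log M := Real.log_natCast_nonneg M
  have hCr : (1 : ℝ) ≤ C := by exact_mod_cast hC1
  nlinarith

theorem growth : ∃ H : (n : ℕ) → SimpleGraph (Fin n),
    (∀ n v, ((H n).neighborSet v).ncard ≤ 3) ∧ (∀ n, 0 < n → (H n).Connected) ∧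
    ∀ (D : ℕ) (ε : ℝ), 0 < ε → ∃ c K : ℝ, 0 < c ∧ 0 < K ∧ ∀ᶠ n : ℕ in atTop,
    ∀ (W : Type) (G : SimpleGraph W), (∀ x, (G.neighborSet x).encard ≤ D) → Ramsey G (H n) →
    ∃ f : (H n).Copy G, ∀ (v : Fin n) (R : ℕ), K * Real.log n ≤ R →
      R ≤ c * Real.log n ^ 2 * Real.log (Real.log n) →
      (2 : ℝ) ^ ((1 / 2 - ε) * R) < {y | G.edist (f v) y ≤ R}.ncard := by
  obtain ⟨H, h1, h2, h3⟩ := Slow.result
  refine ⟨H, h1, h2, fun D ε hε => ?_⟩
  obtain ⟨k, hk⟩ : ∃ k : ℕ, k = ⌈1 / ε⌉₊ + 2 := ⟨_, rfl⟩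
  have hk1 : 1 / ε ≤ k := by
    have := Nat.le_ceil (1 / ε)
    rw [hk]
    push_cast
    linarith
  have hk2 : 2 ≤ k := by omega
  have hkr : (2 : ℝ) ≤ k := by exact_mod_cast hk2
  obtain ⟨K', hK'⟩ := h3 D k (by omega)
  obtain ⟨M, hM⟩ : ∃ M : ℕ, M = max K' 2 := ⟨_, rfl⟩
  have hM2 : 2 ≤ M := by rw [hM]; exact le_max_right _ _
  have hMK : K' ≤ M := by rw [hM]; exact le_max_left _ _
  have hlogM : 0 < Real.log M := Real.log_pos (by exact_mod_cast hM2)
  refine ⟨1 / (16 * Real.log M), 2 * K' + 1, by positivity, by positivity, ?_⟩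
  filter_upwards [eventually_ge_atTop (2 ^ M)] with n hn W G hD hR
  obtain ⟨e1, e2, e3, e4, e5⟩ := logs M n hM2 hn
  obtain ⟨L, hL⟩ : ∃ L, L = Nat.log 2 n := ⟨_, rfl⟩
  obtain ⟨C, hC⟩ : ∃ C, C = Nat.log M L := ⟨_, rfl⟩
  rw [← hL] at e1 e2 e3 e4 e5
  rw [← hC] at e2 e5
  by_contra hcon
  push Not at hcon
  have hCL : K' ^ C ≤ Nat.log 2 n := by
    rw [← hL, hC]
    refine (Nat.pow_le_pow_left hMK _).trans (Nat.pow_log_le_self M (by omega))
  obtain ⟨col, hcol⟩ := hK' n C (by omega) hCL W G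
    (fun x => ⟨Set.finite_of_encard_le_coe (hD x),
      (Set.encard_le_coe_iff_finite_ncard_le.1 (hD x)).2⟩) (fun f => by
    obtain ⟨v, R, hR1, hR2, hR3⟩ := hcon f
    refine ⟨v, R, ?_, ?_, ?_⟩
    · rw [← hL]
      have h5 : (K' * L : ℝ) ≤ R := by
        have : (0 : ℝ) ≤ K' := Nat.cast_nonneg _
        have h6 : 0 ≤ Real.log n := Real.log_natCast_nonneg n
        nlinarith
      exact_mod_cast h5
    · rw [← hL]
      have hLr : (0 : ℝ) ≤ L := Nat.cast_nonneg _
      have hlogn : 0 ≤ Real.log n := Real.log_natCast_nonneg n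
      have h5 : Real.log n ^ 2 ≤ 4 * (L : ℝ) ^ 2 := by nlinarith
      have h6 : 1 / (16 * Real.log M) * Real.log n ^ 2 * Real.log (Real.log n) ≤ C * (L : ℝ) ^ 2 := by
        have h7 : Real.log n ^ 2 * Real.log (Real.log n) ≤
            4 * (L : ℝ) ^ 2 * (4 * Real.log M * C) := by
          have h8 : 0 ≤ 4 * Real.log M * C := by positivity
          calc Real.log n ^ 2 * Real.log (Real.log n) ≤
                Real.log n ^ 2 * (4 * Real.log M * C) :=
                mul_le_mul_of_nonneg_left e5 (sq_nonneg _)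
            _ ≤ _ := mul_le_mul_of_nonneg_right h5 h8
        have h9 : 1 / (16 * Real.log M) * (4 * (L : ℝ) ^ 2 * (4 * Real.log M * C)) =
            C * (L : ℝ) ^ 2 := by
          field_simp
          ring
        rw [← h9, mul_assoc]
        exact mul_le_mul_of_nonneg_left h7 (by positivity)
      have h10 : (R : ℝ) ≤ C * (L : ℝ) ^ 2 := hR2.trans h6
      exact_mod_cast h10
    · have h5 : (1 / 2 - ε) * R ≤ ((k : ℝ) - 2) / (2 * k) * R := by
        refine mul_le_mul_of_nonneg_right ?_ (Nat.cast_nonneg _)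
        have h6 : 1 / (k : ℝ) ≤ ε := by
          rw [div_le_iff₀ (by linarith)]
          rw [div_le_iff₀ hε] at hk1
          linarith
        have h7 : ((k : ℝ) - 2) / (2 * k) = 1 / 2 - 1 / k := by field_simp
        rw [h7]
        linarith
      have h6 : ({y | G.edist (f v) y ≤ R}.ncard : ℝ) ≤
          (2 : ℝ) ^ (((k : ℝ) - 2) / (2 * k) * R) :=
        hR3.trans (Real.rpow_le_rpow_of_exponent_le (by norm_num) h5)
      have h7 : ({y | G.edist (f v) y ≤ R}.ncard : ℝ) ^ (2 * k) ≤ (2 : ℝ) ^ ((k - 2) * R) := by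
        refine (pow_le_pow_left₀ (Nat.cast_nonneg _) h6 _).trans (le_of_eq ?_)
        rw [← Real.rpow_natCast, ← Real.rpow_mul (by norm_num), ← Real.rpow_natCast]
        congr 1
        push_cast [Nat.cast_sub hk2]
        field_simp
      exact_mod_cast h7)
  obtain ⟨b, f, hf⟩ := hR col
  obtain ⟨u, v, huv, hne⟩ := hcol b f
  exact hne (hf u v huv)

end Pool.Agent.Helper57.DG2
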