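import Pool.Agent.Helper57.DG2.Growth
import Pool.Agent.Helper57.DG2.Covered

set_option autoImplicit false

/-! Crisp form: Ramsey hosts of bounded degree have no separators that meet all copies in few
vertices. -/

namespace Pool.Agent.Helper57.DG2

open Filter

theorem separator : ∃ H : (n : ℕ) → SimpleGraph (Fin n),
    (∀ n v, ((H n).neighborSet v).ncard ≤ 3) ∧ (∀ n, 0 < n → (H n).Connected) ∧
    ∀ (D : ℕ) (ε : ℝ), 0 < ε → ∃ c : ℝ, 0 < c ∧ ∀ᶠ n : ℕ in atTop,
    ∀ (W : Type) (G : SimpleGraph W), (∀ x, (G.neighborSet x).encard ≤ D) → Ramsey G (H n) →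
    ∀ S : Set W, (∀ T : Set W, Disjoint T S → (G.induce T).Connected → T.Finite ∧
      (T.ncard : ℝ) ≤ Real.exp (c * Real.log n ^ 2 * Real.log (Real.log n))) →
    ∃ f : (H n).Copy G, (n : ℝ) ^ (1 - ε) < {v | f v ∈ S}.ncard := by
  classical
  obtain ⟨H, h1, h2, h3⟩ := Covered.result
  refine ⟨H, h1, h2, fun D ε hε => ?_⟩
  obtain ⟨k, hk⟩ : ∃ k : ℕ, k = ⌈1 / ε⌉₊ + 2 := ⟨_, rfl⟩
  have hk1 : 1 / ε ≤ k := by
    have := Nat.le_ceil (1 / ε)
    rw [hk]
    push_cast
    linarith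
  have hk2 : 2 ≤ k := by omega
  have hkr : (2 : ℝ) ≤ k := by exact_mod_cast hk2
  obtain ⟨K', hK'⟩ := h3 D k 0 (by omega)
  obtain ⟨M, hM⟩ : ∃ M : ℕ, M = max K' 2 := ⟨_, rfl⟩
  have hM2 : 2 ≤ M := by rw [hM]; exact le_max_right _ _
  have hMK : K' ≤ M := by rw [hM]; exact le_max_left _ _
  have hlogM : 0 < Real.log M := Real.log_pos (by exact_mod_cast hM2)
  refine ⟨1 / (8 * Real.log M), by positivity, ?_⟩
  filter_upwards [eventually_ge_atTop (2 ^ M)] with n hn W G hD hR S hS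
  obtain ⟨e1, e2, e3, e4, e5⟩ := logs M n hM2 hn
  obtain ⟨L, hL⟩ : ∃ L, L = Nat.log 2 n := ⟨_, rfl⟩
  obtain ⟨C, hC⟩ : ∃ C, C = Nat.log M L := ⟨_, rfl⟩
  rw [← hL] at e1 e2 e3 e4 e5
  rw [← hC] at e2 e5
  have hn1 : 1 ≤ n := le_trans (Nat.one_le_two_pow) hn
  have hnr : (0 : ℝ) < n := by exact_mod_cast hn1
  by_contra hcon
  push Not at hcon
  have hCL : K' ^ C ≤ Nat.log 2 n := by
    rw [← hL, hC]
    refine (Nat.pow_le_pow_left hMK _).trans (Nat.pow_log_le_self M (by omega))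
  have hsize : Real.exp (1 / (8 * Real.log M) * Real.log n ^ 2 * Real.log (Real.log n)) ≤
      ((n ^ (C * L) : ℕ) : ℝ) := by
    push_cast
    rw [← Real.exp_log (pow_pos hnr (C * L)), Real.log_pow]
    refine Real.exp_le_exp.2 ?_
    push_cast
    have hlogn : 0 ≤ Real.log n := Real.log_natCast_nonneg n
    have hCr : (0 : ℝ) ≤ C := Nat.cast_nonneg _
    have hLr : (0 : ℝ) ≤ L := Nat.cast_nonneg _
    have h7 : Real.log n ^ 2 * Real.log (Real.log n) ≤
        2 * L * Real.log n * (4 * Real.log M * C) := by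
      have h8 : 0 ≤ 4 * Real.log M * C := by positivity
      calc Real.log n ^ 2 * Real.log (Real.log n) ≤
            Real.log n ^ 2 * (4 * Real.log M * C) :=
            mul_le_mul_of_nonneg_left e5 (sq_nonneg _)
        _ ≤ _ := mul_le_mul_of_nonneg_right (by nlinarith) h8
    have h9 : 1 / (8 * Real.log M) * (2 * L * Real.log n * (4 * Real.log M * C)) =
        C * L * Real.log n := by
      field_simp
      ring
    rw [← h9, mul_assoc]
    exact mul_le_mul_of_nonneg_left h7 (by positivity)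
  -- the components of the complement of `S`
  obtain ⟨V, hV⟩ : ∃ V : (G.induce Sᶜ).ConnectedComponent → Set W,
      V = fun q => Subtype.val '' q.supp := ⟨_, rfl⟩
  have hVdisj : ∀ q, Disjoint (V q) S := by
    intro q
    rw [hV, Set.disjoint_left]
    rintro x ⟨y, -, rfl⟩
    exact y.2
  have hVconn : ∀ q, (G.induce (V q)).Connected := by
    intro q
    have hc := q.connected_toSimpleGraph
    let φ : q.toSimpleGraph →g G.induce (V q) :=
      ⟨fun y => ⟨y.1.1, by rw [hV]; exact ⟨y.1, y.2, rfl⟩⟩, fun {a b} h => h⟩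
    have hsurj : Function.Surjective φ := by
      rintro ⟨x, hx⟩
      have hx' := hx
      rw [hV] at hx'
      obtain ⟨y, hy, hyx⟩ := hx'
      exact ⟨⟨y, hy⟩, Subtype.ext hyx⟩
    have : Nonempty (V q) := by
      obtain ⟨y⟩ := hc.nonempty
      exact ⟨φ y⟩
    refine ⟨fun a b => ?_⟩
    obtain ⟨a', rfl⟩ := hsurj a
    obtain ⟨b', rfl⟩ := hsurj b
    exact (hc.preconnected a' b').map φ
  have hVcard : ∀ q, (V q).Finite ∧ (V q).ncard ≤ n ^ (C * Nat.log 2 n) := by
    intro q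
    obtain ⟨h5, h6⟩ := hS (V q) (hVdisj q) (hVconn q)
    refine ⟨h5, ?_⟩
    rw [← hL]
    exact_mod_cast h6.trans hsize
  have hVmult : ∀ x, {q | x ∈ V q}.Finite ∧ {q | x ∈ V q}.ncard ^ k ≤ n ^ 0 := by
    intro x
    have h5 : {q | x ∈ V q}.Subsingleton := by
      intro q hq q' hq'
      rw [hV] at hq hq'
      obtain ⟨y, hy, rfl⟩ := hq
      obtain ⟨y', hy', h6⟩ := hq'
      have h7 : y' = y := Subtype.ext h6
      rw [h7] at hy'
      rw [← (SimpleGraph.ConnectedComponent.mem_supp_iff q y).1 hy,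
        ← (SimpleGraph.ConnectedComponent.mem_supp_iff q' y).1 hy']
    refine ⟨h5.finite, ?_⟩
    rw [pow_zero]
    have : Finite ↑{q | x ∈ V q} := h5.finite
    exact (Nat.pow_le_one_iff (by omega)).2 (Set.ncard_le_one_iff_subsingleton.2 h5)
  obtain ⟨col, hcol⟩ := hK' n C (by omega) hCL W (G.induce Sᶜ).ConnectedComponent G
    (fun x => ⟨Set.finite_of_encard_le_coe (hD x),
      (Set.encard_le_coe_iff_finite_ncard_le.1 (hD x)).2⟩) V hVcard hVmult (fun f => by
    refine ⟨{v | f v ∈ S}, ?_, ?_⟩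
    · have h5 := hcon f
      have h6 : ({v | f v ∈ S}.ncard : ℝ) ^ k ≤ (n : ℝ) ^ (k - (0 + 1)) := by
        refine (pow_le_pow_left₀ (Nat.cast_nonneg _) h5 k).trans ?_
        rw [← Real.rpow_natCast, ← Real.rpow_mul hnr.le, ← Real.rpow_natCast]
        refine Real.rpow_le_rpow_of_exponent_le (by exact_mod_cast hn1) ?_
        have h7 : 1 ≤ ε * k := by
          rw [div_le_iff₀ hε] at hk1
          linarith
        rw [Nat.cast_sub (by omega)]
        push_cast
        linarith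
      exact_mod_cast h6
    · intro A hA hdis
      have hout : ∀ v ∈ A, f v ∈ Sᶜ := fun v hv hvS => Set.disjoint_left.1 hdis hv hvS
      obtain ⟨v₀⟩ := hA.nonempty
      let ψ : (H n).induce A →g G.induce Sᶜ :=
        ⟨fun v => ⟨f v.1, hout v.1 v.2⟩, fun {a b} h => f.toHom.map_adj h⟩
      refine ⟨(G.induce Sᶜ).connectedComponentMk (ψ v₀), fun v hv => ?_⟩
      rw [hV]
      refine ⟨ψ ⟨v, hv⟩, ?_, rfl⟩
      rw [SimpleGraph.ConnectedComponent.mem_supp_iff]
      exact SimpleGraph.ConnectedComponent.sound ((hA.preconnected ⟨v, hv⟩ v₀).map ψ))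
  obtain ⟨b, f, hf⟩ := hR col
  obtain ⟨u, v, huv, hne⟩ := hcol b f
  exact hne (hf u v huv)

end Pool.Agent.Helper57.DG2
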