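import Pool.Agent.Helper57.DG2.Views
import Pool.Agent.Helper45.DR.Main

set_option autoImplicit false

/-!
# Ramsey hosts of bounded degree have many local views of small radius
-/

namespace Pool.Agent.Helper57.DG2

open Filter

theorem short_views : ∃ H : (n : ℕ) → SimpleGraph (Fin n),
    (∀ n v, ((H n).neighborSet v).ncard ≤ 3) ∧
    ∀ (D : ℕ) (C ε : ℝ), 0 < ε → ∀ᶠ n : ℕ in atTop,
    ∀ (W : Type) (G : SimpleGraph W), (∀ x, (G.neighborSet x).encard ≤ D) →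
    (∀ c : Sym2 W → Bool, ∃ (b : Bool) (f : (H n).Copy G),
      ∀ u v, (H n).Adj u v → c s(f u, f v) = b) →
    ∀ R : Finset W, (∀ x, ∃ y ∈ R, SameView G ⌊ε * Real.log n⌋₊ x y) →
      (n : ℝ) ^ C < R.card := by
  classical
  obtain ⟨H, hH, hH2⟩ := Pool.Agent.Helper45.DR.final
  refine ⟨H, hH, fun D C ε hε => ?_⟩
  have hE0 : 0 < ⌈2 / ε⌉₊ := Nat.ceil_pos.2 (by positivity)
  obtain ⟨n₀, hn₀⟩ := hH2 D ⌈C⌉₊ ⌈2 / ε⌉₊ hE0
  filter_upwards [eventually_ge_atTop n₀, eventually_ge_atTop 1] with n hn hn1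
  intro W G hD hR R hcov
  by_contra hcon
  push Not at hcon
  have hn1' : (1 : ℝ) ≤ n := by exact_mod_cast hn1
  have hln : 0 ≤ Real.log n := Real.log_nonneg hn1'
  have hrad : Nat.log 2 n / ⌈2 / ε⌉₊ ≤ ⌊ε * Real.log n⌋₊ := by
    apply Nat.le_floor
    have h1 : ((Nat.log 2 n / ⌈2 / ε⌉₊ : ℕ) : ℝ) ≤ (Nat.log 2 n : ℝ) / (⌈2 / ε⌉₊ : ℝ) :=
      Nat.cast_div_le
    have h2 : (Nat.log 2 n : ℝ) * Real.log 2 ≤ Real.log n := by
      rw [← Real.log_pow]
      apply Real.log_le_log (by positivity)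
      exact_mod_cast Nat.pow_log_le_self 2 (by omega)
    have h3 : (Nat.log 2 n : ℝ) ≤ 2 * Real.log n := by
      have := Real.log_two_gt_d9
      have h7 : (0 : ℝ) ≤ Nat.log 2 n := Nat.cast_nonneg _
      nlinarith
    have h4 : 2 / ε ≤ (⌈2 / ε⌉₊ : ℝ) := Nat.le_ceil _
    have h5 : (0 : ℝ) < 2 / ε := by positivity
    calc ((Nat.log 2 n / ⌈2 / ε⌉₊ : ℕ) : ℝ) ≤ (Nat.log 2 n : ℝ) / (⌈2 / ε⌉₊ : ℝ) := h1
      _ ≤ (2 * Real.log n) / (⌈2 / ε⌉₊ : ℝ) := by gcongr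
      _ ≤ (2 * Real.log n) / (2 / ε) := by gcongr
      _ = ε * Real.log n := by field_simp
  have hx : ∀ x, ∃ y ∈ R, SameView G ⌊ε * Real.log n⌋₊ x y := hcov
  obtain ⟨c, hc, hno⟩ := hn₀ n hn W W G G (fun v => by
      have h1 := hD v
      have h2 : (G.neighborSet v).Finite := Set.finite_of_encard_le_coe h1
      refine ⟨h2, ?_⟩
      rw [← h2.cast_ncard_eq] at h1
      exact_mod_cast h1) R (by
      have h8 : (n : ℝ) ^ C ≤ (n : ℝ) ^ ((⌈C⌉₊ : ℕ) : ℝ) :=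
        Real.rpow_le_rpow_of_exponent_le hn1' (Nat.le_ceil C)
      rw [Real.rpow_natCast] at h8
      exact_mod_cast hcon.trans h8) (fun x => by
      obtain ⟨y, hy, e, he⟩ := hx x
      have hle : ∀ u, G.edist x u ≤ (Nat.log 2 n / ⌈2 / ε⌉₊ : ℕ) →
          G.edist x u ≤ (⌊ε * Real.log n⌋₊ : ℕ) := fun u hu =>
        hu.trans (by exact_mod_cast hrad)
      refine ⟨fun u => if h : G.edist x u ≤ (⌊ε * Real.log n⌋₊ : ℕ) then (e ⟨u, h⟩ : W) else u,
        ?_, ?_, ?_⟩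
      · have h0 : G.edist x x ≤ (⌊ε * Real.log n⌋₊ : ℕ) := by simp
        simp only [dif_pos h0]
        rw [(he ⟨x, h0⟩).2 rfl]
        exact hy
      · intro u hu v hv huv
        simp only [Set.mem_ofPred_eq] at hu hv
        simp only [dif_pos (hle u hu), dif_pos (hle v hv)] at huv
        have h1 := e.injective (Subtype.ext huv)
        exact congrArg Subtype.val h1
      · intro u v hu hv huv
        simp only [dif_pos (hle u hu), dif_pos (hle v hv)]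
        have h1 : (G.induce {u | G.edist x u ≤ (⌊ε * Real.log n⌋₊ : ℕ)}).Adj
          ⟨u, hle u hu⟩ ⟨v, hle v hv⟩ := huv
        exact e.map_rel_iff.2 h1)
  obtain ⟨b, f, hf⟩ := hR (Sym2.lift ⟨c, hc⟩)
  refine hno b ⟨f, f.injective, fun u v huv => ⟨f.toHom.map_rel huv, ?_⟩⟩
  have := hf u v huv
  simpa using this

end Pool.Agent.Helper57.DG2
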