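import Pool.Agent.Helper57.DG.Final

set_option autoImplicit false

/-!
# MP_74ecc6_co: hosts of any size that grow slowly at some scale
-/

namespace Pool.Agent.Helper57.DG2.Slow

open Pool.Agent.Helper57.DG

/-- There are connected graphs `H n` on `n` vertices of maximum degree at most 3 such that for all
`D` and `k ≥ 1` there is `K` with the following property for all `n` and `C > 0` with
`K ^ C ≤ log₂ n`.  Let `G` be a graph, finite or infinite, of maximum degree at most `D`.  If every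
copy of `H n` in `G` contains a vertex `x` such that for some `R` with
`K log₂ n ≤ R ≤ C (log₂ n) ^ 2` the ball of radius `R` around `x` has at most
`2 ^ ((1 / 2 - 1 / k) R)` vertices, then `G` is not Ramsey for `H n`. -/
theorem result : ∃ H : (n : ℕ) → SimpleGraph (Fin n),
    (∀ n v, ((H n).neighborSet v).ncard ≤ 3) ∧ (∀ n, 0 < n → (H n).Connected) ∧
    ∀ D k : ℕ, 1 ≤ k → ∃ K, ∀ n C, 0 < C → K ^ C ≤ Nat.log 2 n →
    ∀ (W : Type) (G : SimpleGraph W),
    (∀ x, (G.neighborSet x).Finite ∧ (G.neighborSet x).ncard ≤ D) →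
    (∀ f : (H n).Copy G, ∃ v R, K * Nat.log 2 n ≤ R ∧ R ≤ C * Nat.log 2 n ^ 2 ∧
      {y | G.edist (f v) y ≤ R}.ncard ^ (2 * k) ≤ 2 ^ ((k - 2) * R)) →
    ∃ c : Sym2 W → Bool, ∀ (b : Bool) (f : (H n).Copy G),
      ∃ u v, (H n).Adj u v ∧ c s(f u, f v) ≠ b := by
  obtain ⟨H, h1, h2, -, h4⟩ := main
  refine ⟨H, h1, h2, ?_⟩
  intro D k hk
  obtain ⟨K, hK⟩ := h4 D k hk
  refine ⟨K, ?_⟩
  intro n C hC hn W G hD hslow
  refine sym G (H n) (hK n C hC hn W G hD ?_)
  intro f hf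
  exact hslow (SimpleGraph.Hom.toCopy ⟨f, fun {u v} huv => hf.2 u v huv⟩ hf.1)

/-- In particular `G` is not Ramsey for `H n` if every vertex `x` of `G` has a radius
`1 ≤ R ≤ C (log₂ n) ^ 2` such that the ball of radius `R` around `x` has at most
`2 ^ ((1 / 2 - 1 / k) R)` vertices. -/
theorem everywhere : ∃ H : (n : ℕ) → SimpleGraph (Fin n),
    (∀ n v, ((H n).neighborSet v).ncard ≤ 3) ∧ (∀ n, 0 < n → (H n).Connected) ∧
    ∀ D k : ℕ, 1 ≤ k → ∃ K, ∀ n C, 0 < C → K ^ C ≤ Nat.log 2 n →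
    ∀ (W : Type) (G : SimpleGraph W),
    (∀ x, (G.neighborSet x).Finite ∧ (G.neighborSet x).ncard ≤ D) →
    (∀ x, ∃ R, 1 ≤ R ∧ R ≤ C * Nat.log 2 n ^ 2 ∧
      {y | G.edist x y ≤ R}.ncard ^ (2 * k) ≤ 2 ^ ((k - 2) * R)) →
    ∃ c : Sym2 W → Bool, ∀ (b : Bool) (f : (H n).Copy G),
      ∃ u v, (H n).Adj u v ∧ c s(f u, f v) ≠ b := by
  obtain ⟨H, h1, h2, h3⟩ := result
  refine ⟨H, h1, h2, ?_⟩
  intro D k hk
  obtain ⟨K, hK⟩ := h3 D (2 * k) (by omega)
  refine ⟨(K + 1) ^ k, ?_⟩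
  intro n C hC hn W G hD hslow
  have hpow : K ^ (k * C) ≤ Nat.log 2 n := by
    refine le_trans ?_ hn
    rw [← pow_mul]
    exact Nat.pow_le_pow_left (Nat.le_succ K) _
  have hK1 : K ≤ Nat.log 2 n := by
    rcases Nat.eq_zero_or_pos K with h0 | h0
    · omega
    · exact (Nat.le_self_pow (Nat.mul_ne_zero (by omega) (by omega)) K).trans hpow
  refine hK n (k * C) (Nat.mul_pos (by omega) hC) hpow W G hD ?_
  intro f
  have hne : n ≠ 0 := by
    rintro rfl
    rw [Nat.log_zero_right] at hpow hn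
    have : 0 < ((K + 1) ^ k) ^ C := by positivity
    omega
  refine ⟨⟨0, by omega⟩, k * C * Nat.log 2 n ^ 2, ?_, le_rfl, ?_⟩
  · rw [sq, ← mul_assoc]
    refine Nat.mul_le_mul_right _ (hK1.trans ?_)
    exact Nat.le_mul_of_pos_left _ (Nat.mul_pos (by omega) hC)
  · have h5 := slow_all G D k (C * Nat.log 2 n ^ 2) hD hslow (k * C * Nat.log 2 n ^ 2)
      (f ⟨0, by omega⟩)
    calc {y | G.edist (f ⟨0, by omega⟩) y ≤ ((k * C * Nat.log 2 n ^ 2 : ℕ) : ℕ∞)}.ncard ^
          (2 * (2 * k))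
        = ({y | G.edist (f ⟨0, by omega⟩) y ≤ ((k * C * Nat.log 2 n ^ 2 : ℕ) : ℕ∞)}.ncard ^
          (2 * k)) ^ 2 := by
          rw [← pow_mul]
          congr 1
          ring
      _ ≤ (2 ^ ((k - 2) * (k * C * Nat.log 2 n ^ 2 + C * Nat.log 2 n ^ 2))) ^ 2 :=
          Nat.pow_le_pow_left h5 _
      _ ≤ 2 ^ ((2 * k - 2) * (k * C * Nat.log 2 n ^ 2)) := by
          rw [← pow_mul]
          apply Nat.pow_le_pow_right (by norm_num)
          obtain ⟨s, hs⟩ : ∃ s, s = C * Nat.log 2 n ^ 2 := ⟨_, rfl⟩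
          rw [mul_assoc k, ← hs]
          rcases Nat.lt_or_ge k 2 with h6 | h6
          · have : k - 2 = 0 := by omega
            rw [this, zero_mul, zero_mul]
            exact Nat.zero_le _
          · obtain ⟨p, rfl⟩ : ∃ p, k = p + 2 := ⟨k - 2, by omega⟩
            have e1 : 2 * (p + 2) - 2 = 2 * p + 2 := by omega
            rw [e1, Nat.add_sub_cancel]
            nlinarith

end Pool.Agent.Helper57.DG2.Slow
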