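import Pool.Agent.Helper45.DR2.Final

set_option autoImplicit false

/-!
# Ramsey hosts of bounded degree have many local views
-/

namespace Pool.Agent.Helper57.DG2

open Filter

/-- The balls of radius `r` around `x` and `y` are isomorphic, `x` going to `y`. -/
def SameView {W : Type} (G : SimpleGraph W) (r : ℕ) (x y : W) : Prop :=
  ∃ e : G.induce {u | G.edist x u ≤ r} ≃g G.induce {u | G.edist y u ≤ r},
    ∀ u, (e u : W) = y ↔ (u : W) = x

theorem views : ∃ H : (n : ℕ) → SimpleGraph (Fin n),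
    (∀ n v, ((H n).neighborSet v).ncard ≤ 3) ∧
    ∀ (D J : ℕ) (C : ℝ), ∀ᶠ n : ℕ in atTop,
    ∀ (W ι : Type) (G : SimpleGraph W), (∀ x, (G.neighborSet x).encard ≤ D) →
    (∀ c : Sym2 W → Bool, ∃ (b : Bool) (f : (H n).Copy G),
      ∀ u v, (H n).Adj u v → c s(f u, f v) = b) →
    ∀ (col : W → Fin J) (part : W → ι),
    (∀ x y, col x = col y → G.edist x y ≤ (2 * Nat.log 2 n : ℕ) → part x = part y) →
    ∃ j p, ∀ R : Finset W, (∀ x, col x = j → part x = p → ∃ y ∈ R,
      SameView G (2 * Nat.log 2 n) x y) →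
      (n : ℝ) ^ (C * Real.log n) < R.card := by
  classical
  obtain ⟨H, hH, hH2⟩ := Pool.Agent.Helper45.DR2.final2
  refine ⟨H, hH, fun D J C => ?_⟩
  obtain ⟨n₀, hn₀⟩ := hH2 D J ⌈C⌉₊
  have hlog : ∀ᶠ n : ℕ in atTop, (3 : ℝ) ≤ Real.log n :=
    (Real.tendsto_log_atTop.comp tendsto_natCast_atTop_atTop).eventually (eventually_ge_atTop 3)
  filter_upwards [eventually_ge_atTop n₀, hlog, eventually_ge_atTop 1] with n hn hl hn1
  intro W ι G hD hR col part hsep
  by_contra hcon
  push Not at hcon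
  choose R hR1 hR2 using hcon
  have hx : ∀ x, ∃ y ∈ R (col x) (part x), SameView G (2 * Nat.log 2 n) x y := fun x => hR1 (col x) (part x) x rfl rfl
  choose τ hτ e he using hx
  obtain ⟨c, hc, hno⟩ := hn₀ n hn W W ι G G (fun v => by
      have h1 := hD v
      have h2 : (G.neighborSet v).Finite := Set.finite_of_encard_le_coe h1
      refine ⟨h2, ?_⟩
      rw [← h2.cast_ncard_eq] at h1
      exact_mod_cast h1) τ col part (fun x => by
      refine ⟨fun u => if h : G.edist x u ≤ (2 * Nat.log 2 n : ℕ) then (e x ⟨u, h⟩ : W) else u,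
        ?_, ?_, ?_⟩
      · have h0 : G.edist x x ≤ (2 * Nat.log 2 n : ℕ) := by simp
        simp only [dif_pos h0]
        exact (he x ⟨x, h0⟩).2 rfl
      · intro u hu v hv huv
        simp only [Set.mem_ofPred_eq] at hu hv
        simp only [dif_pos hu, dif_pos hv] at huv
        have h1 := (e x).injective (Subtype.ext huv)
        exact congrArg Subtype.val h1
      · intro u v hu hv huv
        simp only [dif_pos hu, dif_pos hv]
        have h1 : (G.induce {u | G.edist x u ≤ (2 * Nat.log 2 n : ℕ)}).Adj ⟨u, hu⟩ ⟨v, hv⟩ := huv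
        exact (e x).map_rel_iff.2 h1) hsep (fun l P => by
      have h1 : τ '' {x | col x = l ∧ part x = P} ⊆ (R l P : Set W) := by
        rintro _ ⟨x, ⟨rfl, rfl⟩, rfl⟩
        exact hτ x
      refine ⟨(Finset.finite_toSet _).subset h1, ?_⟩
      refine (Set.ncard_le_ncard h1 (Finset.finite_toSet _)).trans ?_
      rw [Set.ncard_coe_finset]
      have h2 := hR2 l P
      have hn1' : (1 : ℝ) ≤ n := by exact_mod_cast hn1
      have h3 : Real.log n ≤ (Nat.log 2 n : ℝ) := by
        have h4 : (n : ℝ) < 2 ^ (Nat.log 2 n + 1) := by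
          exact_mod_cast Nat.lt_pow_succ_log_self (by norm_num) n
        have h5 : Real.log n ≤ (Nat.log 2 n + 1) * Real.log 2 := by
          have := Real.log_le_log (by linarith) h4.le
          rwa [Real.log_pow, Nat.cast_add, Nat.cast_one] at this
        have h6 := Real.log_two_lt_d9
        have h7 : (0 : ℝ) ≤ Nat.log 2 n := Nat.cast_nonneg _
        nlinarith
      have h8 : (n : ℝ) ^ (C * Real.log n) ≤ (n : ℝ) ^ ((⌈C⌉₊ * Nat.log 2 n : ℕ) : ℝ) := by
        apply Real.rpow_le_rpow_of_exponent_le hn1'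
        rw [Nat.cast_mul]
        have h9 : C ≤ ⌈C⌉₊ := Nat.le_ceil C
        have h10 : (0 : ℝ) ≤ ⌈C⌉₊ := Nat.cast_nonneg _
        calc C * Real.log n ≤ ⌈C⌉₊ * Real.log n := by
              apply mul_le_mul_of_nonneg_right h9 (by linarith)
          _ ≤ ⌈C⌉₊ * Nat.log 2 n := mul_le_mul_of_nonneg_left h3 h10
      rw [Real.rpow_natCast] at h8
      exact_mod_cast h2.trans h8)
  obtain ⟨b, f, hf⟩ := hR (Sym2.lift ⟨c, hc⟩)
  refine hno b ⟨f, f.injective, fun u v huv => ⟨f.toHom.map_rel huv, ?_⟩⟩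
  have := hf u v huv
  simpa using this

end Pool.Agent.Helper57.DG2
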